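import Pool.Agent.H18.Can2

namespace Pool.Agent.Results.MP_436c39_lc.Cex

open Pool.Agent.H38.NP Pool.Agent.H62.Lad Pool.Agent.H18.Can

/-- `Δ = (ℚ,<)` is a finitely bounded ordered homogeneous Ramsey structure with CSP in P, but for
every structure `Γ` on `ℚ` that has `<` among its relations (such as `Γ = Δ`) and every tuple of
constants, the type clone preserves a structure with NP-hard CSP. -/
theorem result :
    FinBounded Qlt ∧ Ordered Qlt ∧ Homogeneous Qlt ∧ Ramsey Qlt ∧ InP (CSP Qlt) ∧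
    ∀ (ar : List ℕ) (Γ : Str ar ℚ), (∃ s, ∀ x y, Γ.rel s [x, y] ↔ x < y) →
      ∀ (n : ℕ) (c : Fin n → ℚ),
        (∃ B : Str [3] (Ty Qlt c), Preserves (TypeClone Qlt Γ c) B ∧ NPHard (CSP B)) ∧
        (CorrTractable (TypeClone Qlt Γ c) → ∀ L, InNP L → InP L) :=
  main

end Pool.Agent.Results.MP_436c39_lc.Cex
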